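import Pool.Agent.Helper75.WC.RowData

/-! Project WC. The data of a cyclic extension `M / R`, `M = Ω(x, y, w)`, `R ⊆ Ω(x, y)`: here `x`,
`y` are elements of `M`. -/

set_option autoImplicit false

namespace Pool.Agent.Helper15.WC

open IntermediateField Pool.Agent.Helper75.QC Pool.Agent.Helper75.WC Pool.Agent.Helper40.SD

/-- The data of `M / R`: `R ⊆ Ω(x, y)`, `w` generates `M` over `Ω(x, y)`, `w ^ n ∈ Ω(x, y)`. -/
theorem cyc_dataM {Ω R M : Type} [Field Ω] [Field R] [Field M] [Algebra Ω R] [Algebra Ω M]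
    [Algebra R M] [IsScalarTower Ω R M] [FiniteDimensional R M] [IsGalois R M] (x y w : M)
    (hR : ∀ r : R, algebraMap R M r ∈ adjoin Ω {x, y}) (hM : adjoin Ω {x, y, w} = ⊤) {n : ℕ}
    (hn : Module.finrank (adjoin Ω {x, y}) M = n) (hwn : w ^ n ∈ adjoin Ω {x, y}) :
    0 < n ∧ (n : Ω) ≠ 0 ∧ (1 < n → w ≠ 0) := by
  obtain ⟨B, hB⟩ : ∃ B : IntermediateField Ω M, B = adjoin Ω {x, y} := ⟨_, rfl⟩
  rw [← hB] at hR hn hwn
  let _ : Algebra R B := RingHom.toAlgebra
    ({ toFun := fun r => ⟨algebraMap R M r, hR r⟩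
       map_one' := Subtype.ext (map_one _)
       map_mul' := fun a b => Subtype.ext (map_mul _ a b)
       map_zero' := Subtype.ext (map_zero _)
       map_add' := fun a b => Subtype.ext (map_add _ a b) } : R →+* B)
  have : IsScalarTower R B M := IsScalarTower.of_algebraMap_eq fun r => rfl
  have hfd : FiniteDimensional B M := FiniteDimensional.right R B M
  have hgal : IsGalois B M := IsGalois.tower_top_of_isGalois R B M
  have hn0 : 0 < n := by
    rw [← hn]
    exact Module.finrank_pos
  have hw : adjoin B {w} = ⊤ := by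
    have h1 : ∀ k ∈ adjoin Ω {x, y, w}, k ∈ (adjoin B {w}).restrictScalars Ω := by
      have h2 : adjoin Ω {x, y, w} ≤ (adjoin B {w}).restrictScalars Ω := by
        have mB : ∀ b ∈ B, b ∈ (adjoin B {w}).restrictScalars Ω := fun b hb =>
          (adjoin B {w}).algebraMap_mem ⟨b, hb⟩
        rw [adjoin_le_iff]
        rintro s (rfl | rfl | rfl)
        · exact mB _ (by rw [hB]; exact subset_adjoin _ _ (by simp))
        · exact mB _ (by rw [hB]; exact subset_adjoin _ _ (by simp))
        · exact subset_adjoin B _ (by simp)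
      exact h2
    rw [eq_top_iff]
    intro k _
    exact h1 k (by rw [hM]; exact mem_top)
  refine ⟨hn0, ?_, fun h1 => ?_⟩
  · intro h0
    have hint : IsIntegral B w := Algebra.IsIntegral.isIntegral w
    have h1 : (minpoly B w).natDegree = n := by
      rw [← IntermediateField.adjoin.finrank hint, hw, IntermediateField.finrank_top', hn]
    have h2 : minpoly B w ∣ Polynomial.X ^ n - Polynomial.C ⟨w ^ n, hwn⟩ := by
      apply minpoly.dvd
      rw [map_sub, Polynomial.aeval_X_pow, Polynomial.aeval_C]
      exact sub_self _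
    have h3 : minpoly B w = Polynomial.X ^ n - Polynomial.C ⟨w ^ n, hwn⟩ := by
      refine (Polynomial.eq_of_monic_of_dvd_of_natDegree_le (minpoly.monic hint)
        (Polynomial.monic_X_pow_sub_C _ hn0.ne') h2 ?_).symm
      rw [Polynomial.natDegree_X_pow_sub_C, h1]
    have h4 : (minpoly B w).Separable := (inferInstance : Algebra.IsSeparable B M).isSeparable' w
    rw [h3, Polynomial.separable_def] at h4
    have h5 : ((n : ℕ) : B) = 0 := by
      have h6 := congrArg (algebraMap Ω B) h0
      rwa [map_natCast, map_zero] at h6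
    rw [Polynomial.derivative_sub, Polynomial.derivative_X_pow, Polynomial.derivative_C, h5, map_zero,
      zero_mul, sub_zero, isCoprime_zero_right] at h4
    have h7 := Polynomial.natDegree_eq_zero_of_isUnit h4
    rw [Polynomial.natDegree_X_pow_sub_C] at h7
    exact hn0.ne' h7
  · rintro rfl
    have h2 : adjoin B {(0 : M)} = ⊥ := by
      rw [adjoin_simple_eq_bot_iff]
      exact zero_mem _
    rw [h2] at hw
    have h3 : Module.finrank B (⊥ : IntermediateField B M) = 1 := IntermediateField.finrank_bot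
    rw [hw, IntermediateField.finrank_top', hn] at h3
    omega

theorem weighted_mem {Ω M : Type} [Field Ω] [Field M] [Algebra Ω M] {n : ℕ} {x y w : M}
    (hrow : IsWeighted Ω n x y w) : w ^ n ∈ adjoin Ω {x, y} := by
  obtain ⟨a, b, c, i, j, f, g, hpos, hc, hf, h⟩ := hrow
  have hmX : x ∈ adjoin Ω {x, y} := subset_adjoin _ _ (by simp)
  have hmY : y ∈ adjoin Ω {x, y} := subset_adjoin _ _ (by simp)
  rcases h with ⟨-, -, hg0, h⟩ | ⟨-, -, m, -, -, h⟩
  · have h1 : w ^ n = MvPolynomial.aeval ![x, y] f / MvPolynomial.aeval ![x, y] g ^ 2 := by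
      rw [← h, mul_div_cancel_right₀ _ (pow_ne_zero _ hg0)]
    rw [h1]
    exact div_mem (mem_valr75 f x y _ hmX hmY) (pow_mem (mem_valr75 g x y _ hmX hmY) 2)
  · rw [h]
    exact mul_mem (mem_valr75 f x y _ hmX hmY) (pow_mem (mem_valr75 g x y _ hmX hmY) _)

/-- **The list with weights**, for elements `x`, `y`, `w` of `M`. -/
theorem row_uniM {Ω M : Type} [Field Ω] [IsAlgClosed Ω] [Field M] [Algebra Ω M] (X Y w : M) {n : ℕ}
    (htop : adjoin Ω {X, Y, w} = ⊤) (hcast : (n : Ω) ≠ 0) (hw0 : 1 < n → w ≠ 0)
    (hrow : IsWeighted Ω n X Y w) :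
    (n ≤ 2 → Uniruled Ω M 2) ∧ (2 < n → ∃ α β : ℕ, (α.gcd β).Coprime n ∧ ¬ n ∣ α ∧ ¬ n ∣ β ∧
      ¬ n ∣ α + β ∧ ∀ (N : Type) [Field N] [Algebra Ω N] (g : M →ₐ[Ω] N) (v s : N), v ≠ 0 → v ≠ 1 →
        v ^ α * (1 - v) ^ β = s ^ n * g w ^ n →
        Uniruled Ω (adjoin Ω {g X, g Y, v, s} : IntermediateField Ω N) 3) := by
  have hwn := weighted_mem hrow
  obtain ⟨a, b, c, i, j, f, g, hpos, hc, hf, h⟩ := hrow
  have hn0 : 0 < n := by
    rcases Nat.eq_zero_or_pos n with h0 | h0
    · rw [h0, Nat.cast_zero] at hcast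
      exact absurd rfl hcast
    · exact h0
  refine ⟨fun hn2 => ?_, fun hn2 => ?_⟩
  · -- small degree
    have hc0 : c = 0 := hc.resolve_left (by omega)
    subst hc0
    rcases Nat.lt_or_ge 1 n with h1 | h1
    · have hn2' : n = 2 := by omega
      subst hn2'
      have h2 : (2 : Ω) ≠ 0 := by exact_mod_cast hcast
      obtain ⟨z, hz, hz'⟩ : ∃ z : M, z ^ 2 = MvPolynomial.aeval ![X, Y] f ∧
          adjoin Ω {X, Y, z} = ⊤ := by
        rcases h with ⟨-, -, hg0, h⟩ | ⟨-, -, m, hm, -, h⟩
        · refine ⟨w * MvPolynomial.aeval ![X, Y] g, ?_, ?_⟩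
          · rw [← h]
            ring
          · rw [eq_top_iff, ← htop, adjoin_le_iff]
            have mX : X ∈ adjoin Ω {X, Y, w * MvPolynomial.aeval ![X, Y] g} :=
              subset_adjoin _ _ (by simp)
            have mY : Y ∈ adjoin Ω {X, Y, w * MvPolynomial.aeval ![X, Y] g} :=
              subset_adjoin _ _ (by simp)
            have mz : w * MvPolynomial.aeval ![X, Y] g ∈
                adjoin Ω {X, Y, w * MvPolynomial.aeval ![X, Y] g} :=
              subset_adjoin _ _ (by simp)
            rintro s (rfl | rfl | rfl)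
            · exact mX
            · exact mY
            · have h3 : s = s * MvPolynomial.aeval ![X, Y] g / MvPolynomial.aeval ![X, Y] g := by
                rw [mul_div_cancel_right₀ _ hg0]
              exact (congrArg (· ∈ adjoin Ω {X, Y, s * MvPolynomial.aeval ![X, Y] g}) h3).mpr
                (div_mem mz (mem_valr75 g X Y _ mX mY))
        · have hm1 : m = 1 := by omega
          refine ⟨w, ?_, htop⟩
          rw [h, hm1, Nat.sub_self, pow_zero, mul_one]
      have h3 : Uniruled Ω (adjoin Ω {X, Y, z} : IntermediateField Ω M) 2 := by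
        refine uni_double_all f 0 (Or.inl h2) a b (by omega) (fun m hm => ?_) (fun m hm => ?_) X Y z
          (by rw [map_zero, zero_mul, zero_add, hz])
        · have h4 := hf m hm
          omega
        · simp at hm
      rw [hz'] at h3
      exact uniruled_of_hom (topEquiv (F := Ω) (E := M)).symm.toAlgHom h3
    · have hn1 : n = 1 := by omega
      refine Pool.Agent.Helper35.TD.uniruled_surface (n := 1) X Y w htop ?_
      rw [hn1, pow_one] at hwn
      exact hwn
  · -- large degree
    have hw0' := hw0 (by omega)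
    rcases h with ⟨hij, hg, hg0, h⟩ | ⟨hi, hg, m, hm, hij, h⟩
    · refine ⟨1, 1, by simp, ?_, ?_, ?_, fun N _ _ k v s hv0 hv1 hvs => ?_⟩
      · rw [Nat.dvd_one]
        omega
      · rw [Nat.dvd_one]
        omega
      · intro h1
        have h2 := Nat.le_of_dvd (by norm_num) h1
        omega
      · have hgk : MvPolynomial.aeval ![k X, k Y] g ≠ 0 := by
          rw [← map_aeval75]
          exact (map_ne_zero k).2 hg0
        have hs0 : s ≠ 0 := by
          rintro rfl
          rw [pow_one, pow_one, zero_pow (by omega), zero_mul] at hvs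
          exact mul_ne_zero hv0 (sub_ne_zero.2 hv1.symm) hvs
        refine uni_A hij hpos hg hf (k X) (k Y) v s hgk hs0 ?_
        rw [pow_one, pow_one] at hvs
        rw [hvs, ← map_aeval75, ← map_aeval75, ← h, map_mul, map_pow, map_pow]
        ring
    · have hm2 : 2 ≤ m := by omega
      have hg0 : MvPolynomial.aeval ![X, Y] g ≠ 0 := by
        intro h0
        rw [h0, zero_pow (by omega), mul_zero] at h
        exact pow_ne_zero _ hw0' h
      have h2 : (2 : Ω) ≠ 0 := by
        intro h0
        apply hcast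
        rw [hm, Nat.cast_mul, Nat.cast_ofNat, h0, zero_mul]
      refine ⟨1, m, by simp, ?_, ?_, ?_, fun N _ _ k v s hv0 hv1 hvs => ?_⟩
      · rw [Nat.dvd_one]
        omega
      · intro h1
        have h3 := Nat.le_of_dvd (by omega) h1
        omega
      · intro h1
        have h3 := Nat.le_of_dvd (by omega) h1
        omega
      · have hv1' : 1 - v ≠ 0 := sub_ne_zero.2 hv1.symm
        have hgk : MvPolynomial.aeval ![k X, k Y] g ≠ 0 := by
          rw [← map_aeval75]
          exact (map_ne_zero k).2 hg0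
        have hs0 : s ≠ 0 := by
          rintro rfl
          rw [pow_one, zero_pow (by omega), zero_mul] at hvs
          exact mul_ne_zero hv0 (pow_ne_zero _ hv1') hvs
        refine uni_B h2 hi (by omega) hij hpos hg hf (k X) (k Y) v s hgk hs0 hv1' ?_
        rw [pow_one] at hvs
        rw [hvs, ← map_aeval75, ← map_aeval75, ← map_pow k w, h, map_mul, map_pow, hm]

end Pool.Agent.Helper15.WC
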