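import Pool.Agent.Helper15.WC.Prim
import Pool.Agent.Helper15.QM.Gen

/-! Project WC. The primitive classes of a cyclic extension `M = R(w)`, `w ^ n ∈ R`, `R = Ω(x, y)`. -/

set_option autoImplicit false

namespace Pool.Agent.Helper15.WC

open IntermediateField Pool.Agent.Helper75.QC Pool.Agent.Helper75.WC

variable {Ω L K : Type} [Field Ω] [Field L] [Field K] [Algebra Ω K]

theorem range_eq (R : IntermediateField Ω K) (M : IntermediateField R K) (x y : R)
    (hR : adjoin Ω {x, y} = ⊤) :
    adjoin Ω {algebraMap R M x, algebraMap R M y} = (IsScalarTower.toAlgHom Ω R M).fieldRange := by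
  have h1 : ({algebraMap R M x, algebraMap R M y} : Set M) =
      (IsScalarTower.toAlgHom Ω R M) '' {x, y} := by
    rw [Set.image_pair]
    rfl
  rw [h1, ← adjoin_map, hR]
  ext a
  constructor
  · rintro ⟨b, -, hb⟩
    exact ⟨b, hb⟩
  · rintro ⟨b, hb⟩
    exact ⟨b, mem_top, hb⟩

theorem prim_kummer (T : BaseTheory Ω L) (R : IntermediateField Ω K) (M : IntermediateField R K)
    [FiniteDimensional R M] (r : ℕ) {n : ℕ} (hn : 0 < n) (hn' : (n : Ω) ≠ 0) {ζ : Ω}
    (hζ : IsPrimitiveRoot ζ n)
    (x y : R) (w : M) (hR : adjoin Ω {x, y} = ⊤) (hM : adjoin R {w} = ⊤)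
    (hdeg : Module.finrank R M = n) (c : R) (hw : w ^ n = algebraMap R M c) (hw0 : w ≠ 0)
    (s : T.H r M) (hs : IsPrim T R r M s) (hs0 : s ≠ 0) :
    adjoin Ω {algebraMap R M x, algebraMap R M y, w} = ⊤ ∧
    Module.finrank (adjoin Ω {algebraMap R M x, algebraMap R M y}) M = n ∧
    w ^ n ∈ adjoin Ω {algebraMap R M x, algebraMap R M y} ∧
    ∃ (σ : M →ₐ[Ω] M) (ξ : L),
      (∀ k ∈ adjoin Ω {algebraMap R M x, algebraMap R M y}, σ k = k) ∧
      σ w = algebraMap Ω M ζ * w ∧ ξ ^ n = 1 ∧ (∀ d : ℕ, ξ ^ d = 1 → n ∣ d) ∧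
      T.map r σ s = ξ • s := by
  classical
  have hrange := range_eq R M x y hR
  obtain ⟨R', hR'⟩ : ∃ R' : IntermediateField Ω M,
    R' = adjoin Ω {algebraMap R M x, algebraMap R M y} := ⟨_, rfl⟩
  have hmem : ∀ a : R, algebraMap R M a ∈ R' := by
    intro a
    rw [hR', hrange]
    exact ⟨a, rfl⟩
  have hmem' : ∀ k ∈ R', ∃ a : R, algebraMap R M a = k := by
    intro k hk
    rw [hR', hrange] at hk
    exact hk
  -- generation
  have hgen : adjoin Ω ((R' : Set M) ∪ {w}) = ⊤ := by
    let A : IntermediateField R M :=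
      { (adjoin Ω ((R' : Set M) ∪ {w})).toSubfield with
        algebraMap_mem' := fun a => subset_adjoin Ω _ (Or.inl (hmem a)) }
    have hA : (⊤ : IntermediateField R M) ≤ A := by
      rw [← hM, adjoin_le_iff]
      rintro z rfl
      exact subset_adjoin Ω ((R' : Set M) ∪ {z}) (Or.inr rfl)
    rw [eq_top_iff]
    intro z _
    exact hA (mem_top (x := z))
  have hgen' : adjoin Ω {algebraMap R M x, algebraMap R M y, w} = ⊤ := by
    rw [eq_top_iff, ← hgen, adjoin_le_iff]
    rintro z (hz | rfl)
    · have h1 : R' ≤ adjoin Ω {algebraMap R M x, algebraMap R M y, w} := by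
        rw [hR', adjoin_le_iff]
        rintro k (rfl | rfl)
        · exact subset_adjoin _ _ (by simp)
        · exact subset_adjoin _ _ (by simp)
      exact h1 hz
    · exact subset_adjoin _ _ (by simp)
  -- the degree
  have hfin : Module.finrank R' M = n := by
    let i : R ≃+* R' := RingEquiv.ofBijective
      ((algebraMap R M).codRestrict R'.toSubfield.toSubring hmem) (by
        constructor
        · intro a b hab
          exact (algebraMap R M).injective (congrArg Subtype.val hab)
        · rintro ⟨k, hk⟩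
          obtain ⟨a, ha⟩ := hmem' k hk
          exact ⟨a, Subtype.ext ha⟩)
    rw [← hdeg]
    refine (Algebra.finrank_eq_of_equiv_equiv i (RingEquiv.refl M) ?_).symm
    ext a
    rfl
  have hwR : w ^ n ∈ R' := by
    rw [hw]
    exact hmem c
  rw [← hR']
  refine ⟨hgen', hfin, hwR, ?_⟩
  obtain ⟨σ, hσ, hσw⟩ := Pool.Agent.Helper15.QM.Gen.kummer_sigma hn hn' hζ.pow_eq_one R' w hgen hwR
    hfin
  let σ' : M →ₐ[R] M :=
    { toRingHom := (σ : M →+* M)
      commutes' := fun a => hσ _ (hmem a) }
  let g : M ≃ₐ[R] M := AlgEquiv.ofBijective σ' (Algebra.IsAlgebraic.algHom_bijective σ')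
  obtain ⟨ξ, h1, h2⟩ := hs g
  have hg : ((g : M →ₐ[R] M).restrictScalars Ω) = σ := by
    ext z
    rfl
  rw [hg] at h1
  have hpow : ∀ d : ℕ, (g ^ d) w = algebraMap Ω M ζ ^ d * w := by
    intro d
    induction d with
    | zero => simp
    | succ d ih =>
      have e1 : (g ^ (d + 1)) w = (g ^ d) (g w) := by rw [pow_succ, AlgEquiv.mul_apply]
      have e2 : g w = algebraMap Ω M ζ * w := hσw
      have e3 : (g ^ d) (algebraMap Ω M ζ) = algebraMap Ω M ζ := by
        have : algebraMap Ω M ζ = algebraMap R M (algebraMap Ω R ζ) :=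
          IsScalarTower.algebraMap_apply Ω R M ζ
        rw [this, AlgEquiv.commutes]
      rw [e1, e2, map_mul, ih, e3, pow_succ]
      ring
  have hdvd : ∀ d : ℕ, ξ ^ d = 1 → n ∣ d := by
    intro d hd
    have h3 := hpow d
    rw [h2 d hd] at h3
    have h4 : algebraMap Ω M (ζ ^ d) = 1 := by
      rw [map_pow]
      exact mul_right_cancel₀ hw0 (h3.symm.trans (one_mul w).symm)
    have h5 : ζ ^ d = 1 := by
      apply (algebraMap Ω M).injective
      rw [h4, map_one]
    exact hζ.dvd_of_pow_eq_one d h5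
  have hgn : g ^ n = 1 := by
    refine AlgEquiv.ext fun z => ?_
    have hz : z ∈ adjoin Ω ((R' : Set M) ∪ {w}) := by
      rw [hgen]
      exact mem_top
    have h6 : ((g ^ n : M ≃ₐ[R] M) : M →ₐ[R] M).restrictScalars Ω = AlgHom.id Ω M := by
      apply hom_ext _ hgen
      rintro k (hk | rfl)
      · obtain ⟨a, rfl⟩ := hmem' k hk
        exact (g ^ n).commutes a
      · refine (hpow n).trans ?_
        rw [← map_pow, hζ.pow_eq_one, map_one, one_mul]
        rfl
    exact DFunLike.congr_fun h6 z
  have hξn : ξ ^ n = 1 := by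
    have h7 : ∀ k : ℕ, (T.map r σ ^ k) s = ξ ^ k • s := by
      intro k
      induction k with
      | zero => simp
      | succ k ih =>
        rw [pow_succ, Module.End.mul_apply, h1, map_smul, ih, smul_smul, pow_succ, mul_comm]
    have h8 : σ ^ n = 1 := by
      have h9 : ∀ k : ℕ, ((g ^ k : M ≃ₐ[R] M) : M →ₐ[R] M).restrictScalars Ω = σ ^ k := by
        intro k
        induction k with
        | zero => rfl
        | succ k ih =>
          rw [pow_succ σ k, ← ih]
          refine AlgHom.ext fun z => ?_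
          change (g ^ (k + 1)) z = (g ^ k) (σ z)
          rw [pow_succ, AlgEquiv.mul_apply]
          rfl
      rw [← h9 n, hgn]
      rfl
    have h10 := h7 n
    have h11 : T.map r σ ^ n = 1 := by
      have h12 : ∀ k : ℕ, T.map r (σ ^ k) = T.map r σ ^ k := by
        intro k
        induction k with
        | zero => exact T.map_id r M
        | succ k ih =>
          rw [pow_succ, pow_succ, ← ih]
          exact T.map_comp r σ (σ ^ k)
      rw [← h12, h8]
      exact T.map_id r M
    rw [h11] at h10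
    have h13 : (ξ ^ n - 1) • s = 0 := by
      rw [sub_smul, ← h10, one_smul]
      exact sub_self _
    exact sub_eq_zero.1 ((smul_eq_zero.1 h13).resolve_right hs0)
  exact ⟨σ, ξ, hσ, hσw, hξn, hdvd, h1⟩

end Pool.Agent.Helper15.WC
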