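import Pool.Agent.Helper15.QM.Six
import Pool.Agent.Helper15.WC.Kummer

/-! Project WC. The action of the motivic Galois group on primitive eigenclasses, and on `H 2` of an
abelian extension of `Ω(x, y)`. -/

set_option autoImplicit false

namespace Pool.Agent.Helper15.WC

open IntermediateField TensorProduct Pool.Agent.Helper75.QC Pool.Agent.Helper75.TC
  Pool.Agent.Helper75.WC Pool.Agent.Helper15.QM

/-- **One eigenclass.** -/
theorem fix_eigen {Ω L G : Type} [Field Ω] [IsAlgClosed Ω] [Field L] [IsAlgClosed L]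
    [CharZero L] [Group G] (T : MotivicTheory Ω L G) (α β : ℕ) {n : ℕ}
    (hn : 0 < n) (hn' : (n : Ω) ≠ 0) (hab : (α.gcd β).Coprime n) {K : Type}
    [Field K] [Algebra Ω K] (x y w : K)
    (hK : adjoin Ω {x, y, w} = ⊤) (hw0 : w ≠ 0) (hw : w ^ n ∈ adjoin Ω {x, y})
    (hdeg : Module.finrank (adjoin Ω {x, y}) K = n)
    (huni : ∀ (N : Type) [Field N] [Algebra Ω N] (g : K →ₐ[Ω] N) (v s : N),
      Transcendental g.fieldRange v → v ^ α * (1 - v) ^ β = s ^ n * g w ^ n →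
      Uniruled Ω (adjoin Ω {g x, g y, v, s} : IntermediateField Ω N) 3)
    (γ : G) (hγ : T.IsTrivialOnAbelian γ) {ζ : Ω} (hζ : IsPrimitiveRoot ζ n) (σ : K →ₐ[Ω] K)
    (hσ : (∀ k ∈ adjoin Ω {x, y}, σ k = k) ∧ σ w = algebraMap Ω K ζ * w)
    (ξ : L) (hξn : ξ ^ n = 1) (hα : ξ ^ α ≠ 1) (hβ : ξ ^ β ≠ 1) (hαβ : ξ ^ (α + β) ≠ 1)
    (t : T.H 2 K) (ht : T.map 2 σ t = ξ • t) : T.act 2 K γ t = t := by
  classical
  have hfin : (⊤ : IntermediateField Ω K).FG := by
    rw [← hK]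
    exact fg_adjoin_of_finite (Set.toFinite _)
  have hxy : ∀ k : K, k ∈ Acl Ω {x, y} := by
    intro s
    have : FiniteDimensional (adjoin Ω {x, y}) K :=
      Module.finite_of_finrank_pos (by rw [hdeg]; exact hn)
    exact Algebra.IsAlgebraic.isAlgebraic s
  have hx : x ∈ adjoin Ω {x, y} := subset_adjoin _ _ (by simp)
  have hy : y ∈ adjoin Ω {x, y} := subset_adjoin _ _ (by simp)
  have hK' : adjoin Ω ((adjoin Ω {x, y} : Set K) ∪ {w}) = ⊤ := by
    rw [eq_top_iff, ← hK, adjoin_le_iff]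
    rintro s (rfl | rfl | rfl)
    · exact subset_adjoin _ _ (Or.inl hx)
    · exact subset_adjoin _ _ (Or.inl hy)
    · exact subset_adjoin _ _ (Or.inr rfl)
  have huni' : ∀ (N : Type) [Field N] [Algebra Ω N] (g : K →ₐ[Ω] N) (v s : N),
      Transcendental g.fieldRange v → v ^ α * (1 - v) ^ β = s ^ n * g w ^ n →
      Uniruled Ω (adjoin Ω (g '' (adjoin Ω {x, y} : Set K) ∪ {v, s}) :
        IntermediateField Ω N) 3 := by
    intro N _ _ g v s hv hs
    have h1 : adjoin Ω (g '' (adjoin Ω {x, y} : Set K) ∪ {v, s}) = adjoin Ω {g x, g y, v, s} := by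
      apply le_antisymm
      · rw [adjoin_le_iff]
        rintro r (⟨k, hk, rfl⟩ | rfl | rfl)
        · have h2 : adjoin Ω {x, y} ≤ (adjoin Ω {g x, g y, v, s}).comap g := by
            rw [adjoin_le_iff]
            rintro k (rfl | rfl)
            · exact subset_adjoin _ _ (by simp)
            · exact subset_adjoin _ _ (by simp)
          exact h2 hk
        · exact subset_adjoin _ _ (by simp)
        · exact subset_adjoin _ _ (by simp)
      · rw [adjoin_le_iff]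
        rintro r (rfl | rfl | rfl | rfl)
        · exact subset_adjoin _ _ (Or.inl ⟨x, hx, rfl⟩)
        · exact subset_adjoin _ _ (Or.inl ⟨y, hy, rfl⟩)
        · exact subset_adjoin _ _ (by simp)
        · exact subset_adjoin _ _ (by simp)
    rw [h1]
    exact huni N g v s hv hs
  obtain ⟨C, N, iC, jC, iN, jN, v, a, b, z, hC, hv, hbv, -, hz, h6⟩ :=
    exists_cross T.toBaseTheory α β hn hn' hab (adjoin Ω {x, y}) w hK' hw0 hw huni' hζ σ hσ
      ξ hξn hα hβ hαβ
  have h0 := h6 t ht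
  obtain ⟨D, iD, jD, g, hDf, heq, hker⟩ := T.gysin a b x y v hfin hC hxy hv hbv
  obtain ⟨s, hs⟩ := (hker (t ⊗ₜ z)).1 (by
    rw [TensorProduct.lift.tmul]
    exact h0)
  have h1 := heq γ s
  rw [hγ.2 D hDf s, hγ.1, inv_one, one_smul, hs, TensorProduct.map_tmul, hγ.2 C hC z] at h1
  obtain ⟨ξ', hξ'⟩ : ∃ ξ' : Module.Dual L (T.H 1 C), ξ' z ≠ 0 := by
    by_contra hcon
    push Not at hcon
    exact hz ((Module.forall_dual_apply_eq_zero_iff L z).1 hcon)
  have h2 := congrArg (fun r => TensorProduct.rid L (T.H 2 K) (ξ'.lTensor (T.H 2 K) r)) h1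
  simp only [LinearMap.lTensor_tmul, TensorProduct.rid_tmul] at h2
  exact smul_right_injective _ hξ' h2

/-- **A primitive class** of the extension `M = R(w)`, `w ^ n ∈ R = Ω(x, y)`. -/
theorem act_prim {Ω L G : Type} [Field Ω] [IsAlgClosed Ω] [Field L] [IsAlgClosed L]
    [CharZero L] [Group G] (T : MotivicTheory Ω L G) (α β : ℕ) {n : ℕ}
    (hn : 0 < n) (hn' : (n : Ω) ≠ 0) (hab : (α.gcd β).Coprime n) (hα : ¬ n ∣ α) (hβ : ¬ n ∣ β)
    (hαβ : ¬ n ∣ α + β) {K : Type} [Field K] [Algebra Ω K] (R : IntermediateField Ω K)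
    (M : IntermediateField R K) [FiniteDimensional R M] (x y : R) (w : M)
    (hR : adjoin Ω {x, y} = ⊤) (hM : adjoin R {w} = ⊤) (hdeg : Module.finrank R M = n) (c : R)
    (hw : w ^ n = algebraMap R M c) (hw0 : w ≠ 0)
    (huni : ∀ (N : Type) [Field N] [Algebra Ω N] (g : M →ₐ[Ω] N) (v s : N),
      Transcendental g.fieldRange v → v ^ α * (1 - v) ^ β = s ^ n * g w ^ n →
      Uniruled Ω (adjoin Ω {g (algebraMap R M x), g (algebraMap R M y), v, s} :
        IntermediateField Ω N) 3)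
    (γ : G) (hγ : T.IsTrivialOnAbelian γ) (s : T.H 2 M) (hs : IsPrim T.toBaseTheory R 2 M s) :
    T.act 2 M γ s = s := by
  have : NeZero (n : Ω) := ⟨hn'⟩
  obtain ⟨ζ, hζ⟩ : ∃ ζ : Ω, IsPrimitiveRoot ζ n :=
    HasEnoughRootsOfUnity.exists_primitiveRoot Ω n
  by_cases hs0 : s = 0
  · rw [hs0, map_zero]
  obtain ⟨h1, h2, h3, σ, ξ, h4, h5, h6, h7, h8⟩ := prim_kummer T.toBaseTheory R M 2 hn hn' hζ x y w
    hR hM hdeg c hw hw0 s hs hs0
  exact fix_eigen T α β hn hn' hab _ _ w h1 hw0 h3 h2 huni γ hγ hζ σ ⟨h4, h5⟩ ξ h6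
    (fun h => hα (h7 α h)) (fun h => hβ (h7 β h)) (fun h => hαβ (h7 _ h)) s h8

/-- **Abelian extensions.** -/
theorem act_rows {Ω L G : Type} [Field Ω] [IsAlgClosed Ω] [Field L] [IsAlgClosed L]
    [CharZero L] [Group G] (T : MotivicTheory Ω L G) {K : Type} [Field K] [Algebra Ω K]
    (R : IntermediateField Ω K) [FiniteDimensional R K] [IsGalois R K]
    (hab : ∀ g h : K ≃ₐ[R] K, g * h = h * g) (r : ℕ) (γ : G)
    (hM : ∀ M : IntermediateField R K, IsCyclic (M ≃ₐ[R] M) →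
      ∀ s : T.H r M, IsPrim T.toBaseTheory R r M s → T.act r M γ s = s)
    (t : T.H r K) : T.act r K γ t = t := by
  have h1 := eq_top_of_prim T.toBaseTheory R hab r
    (LinearMap.eqLocus (T.act r K γ) LinearMap.id) (fun M hc s hs => by
      show T.act r K γ (T.map r (incl R M) s) = T.map r (incl R M) s
      rw [← T.map_act, hM M hc s hs])
  have h2 : t ∈ LinearMap.eqLocus (T.act r K γ) LinearMap.id := by
    rw [h1]
    exact Submodule.mem_top
  exact h2

end Pool.Agent.Helper15.WC
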