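import Pool.Agent.Helper15.WC.Act
import Pool.Agent.Helper15.WC.RowM
import Pool.Agent.Helper75.WC.Prim
import Pool.Agent.Helper15.QM.Final2

/-! Project WC. Primitive classes of `M / R`, `M = Ω(x, y, w)`, `R ⊆ Ω(x, y)`. -/

set_option autoImplicit false

namespace Pool.Agent.Helper15.WC

open IntermediateField Pool.Agent.Helper75.QC Pool.Agent.Helper75.TC
  Pool.Agent.Helper75.WC Pool.Agent.Helper15.QM

theorem prim_kummerM {Ω L K : Type} [Field Ω] [Field L] [Field K] [Algebra Ω K]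
    (T : BaseTheory Ω L) (R : IntermediateField Ω K) (M : IntermediateField R K)
    [FiniteDimensional R M] (r : ℕ) {n : ℕ} (hn : 0 < n) (hn' : (n : Ω) ≠ 0) {ζ : Ω}
    (hζ : IsPrimitiveRoot ζ n) (x y w : M) (hR : ∀ a : R, algebraMap R M a ∈ adjoin Ω {x, y})
    (hM : adjoin Ω {x, y, w} = ⊤) (hdeg : Module.finrank (adjoin Ω {x, y}) M = n)
    (hw : w ^ n ∈ adjoin Ω {x, y}) (hw0 : w ≠ 0) (s : T.H r M) (hs : IsPrim T R r M s)
    (hs0 : s ≠ 0) :
    ∃ (σ : M →ₐ[Ω] M) (ξ : L), (∀ k ∈ adjoin Ω {x, y}, σ k = k) ∧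
      σ w = algebraMap Ω M ζ * w ∧ ξ ^ n = 1 ∧ (∀ d : ℕ, ξ ^ d = 1 → n ∣ d) ∧
      T.map r σ s = ξ • s := by
  classical
  have hx : x ∈ adjoin Ω {x, y} := subset_adjoin _ _ (by simp)
  have hy : y ∈ adjoin Ω {x, y} := subset_adjoin _ _ (by simp)
  have hgen : adjoin Ω ((adjoin Ω {x, y} : Set M) ∪ {w}) = ⊤ := by
    rw [eq_top_iff, ← hM, adjoin_le_iff]
    rintro s (rfl | rfl | rfl)
    · exact subset_adjoin _ _ (Or.inl hx)
    · exact subset_adjoin _ _ (Or.inl hy)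
    · exact subset_adjoin _ _ (Or.inr rfl)
  obtain ⟨σ, hσ, hσw⟩ := Pool.Agent.Helper15.QM.Gen.kummer_sigma hn hn' hζ.pow_eq_one
    (adjoin Ω {x, y}) w hgen hw hdeg
  let σ' : M →ₐ[R] M :=
    { toRingHom := (σ : M →+* M)
      commutes' := fun a => hσ _ (hR a) }
  let g : M ≃ₐ[R] M := AlgEquiv.ofBijective σ' (Algebra.IsAlgebraic.algHom_bijective σ')
  obtain ⟨ξ, h1, h2⟩ := hs g
  have hg : ((g : M →ₐ[R] M).restrictScalars Ω) = σ := by
    ext z
    rfl
  rw [hg] at h1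
  have hpow : ∀ d : ℕ, (g ^ d) w = algebraMap Ω M ζ ^ d * w := by
    intro d
    induction d with
    | zero => simp
    | succ d ih =>
      have e1 : (g ^ (d + 1)) w = (g ^ d) (g w) := by rw [pow_succ, AlgEquiv.mul_apply]
      have e2 : g w = algebraMap Ω M ζ * w := hσw
      have e3 : (g ^ d) (algebraMap Ω M ζ) = algebraMap Ω M ζ := by
        have : algebraMap Ω M ζ = algebraMap R M (algebraMap Ω R ζ) :=
          IsScalarTower.algebraMap_apply Ω R M ζ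
        rw [this, AlgEquiv.commutes]
      rw [e1, e2, map_mul, ih, e3, pow_succ]
      ring
  have hdvd : ∀ d : ℕ, ξ ^ d = 1 → n ∣ d := by
    intro d hd
    have h3 := hpow d
    rw [h2 d hd] at h3
    have h4 : algebraMap Ω M (ζ ^ d) = 1 := by
      rw [map_pow]
      exact mul_right_cancel₀ hw0 (h3.symm.trans (one_mul w).symm)
    have h5 : ζ ^ d = 1 := by
      apply (algebraMap Ω M).injective
      rw [h4, map_one]
    exact hζ.dvd_of_pow_eq_one d h5
  have hσn : σ ^ n = 1 := sigma_order hζ.pow_eq_one (adjoin Ω {x, y}) w hgen σ ⟨hσ, hσw⟩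
  have hξn : ξ ^ n = 1 := by
    have h7 : ∀ k : ℕ, (T.map r σ ^ k) s = ξ ^ k • s := by
      intro k
      induction k with
      | zero => simp
      | succ k ih =>
        rw [pow_succ, Module.End.mul_apply, h1, map_smul, ih, smul_smul, pow_succ, mul_comm]
    have h10 := h7 n
    have h11 : T.map r σ ^ n = 1 := by
      rw [← tmap_pow75, hσn]
      exact T.map_id r M
    rw [h11] at h10
    have h13 : (ξ ^ n - 1) • s = 0 := by
      rw [sub_smul, ← h10, one_smul]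
      exact sub_self _
    exact sub_eq_zero.1 ((smul_eq_zero.1 h13).resolve_right hs0)
  exact ⟨σ, ξ, hσ, hσw, hξn, hdvd, h1⟩

/-- **The list with weights.** -/
theorem act_weightedM {Ω L G : Type} [Field Ω] [IsAlgClosed Ω] [Field L] [IsAlgClosed L]
    [CharZero L] [Group G] (T : MotivicTheory Ω L G) {K : Type} [Field K] [Algebra Ω K]
    (R : IntermediateField Ω K) (M : IntermediateField R K) [FiniteDimensional R M] [IsGalois R M]
    (x y w : M) (hR : ∀ a : R, algebraMap R M a ∈ adjoin Ω {x, y})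
    (hM : adjoin Ω {x, y, w} = ⊤)
    (hrow : IsWeighted Ω (Module.finrank (adjoin Ω {x, y}) M) x y w)
    (γ : G) (hγ : T.IsTrivialOnAbelian γ) (s : T.H 2 M)
    (hs : Pool.Agent.Helper15.WC.IsPrim T.toBaseTheory R 2 M s) : T.act 2 M γ s = s := by
  obtain ⟨n, hn⟩ : ∃ n, n = Module.finrank (adjoin Ω {x, y}) M := ⟨_, rfl⟩
  rw [← hn] at hrow
  have hwn := weighted_mem hrow
  obtain ⟨hn0, hcast, hw0⟩ := cyc_dataM x y w hR hM hn.symm hwn
  obtain ⟨hsmall, hlarge⟩ := row_uniM x y w hM hcast hw0 hrow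
  rcases Nat.lt_or_ge 2 n with hn2 | hn2
  swap
  · rw [T.uniruled 2 M (hsmall hn2) s, map_zero]
  obtain ⟨α, β, hαβ, hα, hβ, hαβ', huni⟩ := hlarge hn2
  have : NeZero (n : Ω) := ⟨hcast⟩
  obtain ⟨ζ, hζ⟩ : ∃ ζ : Ω, IsPrimitiveRoot ζ n :=
    HasEnoughRootsOfUnity.exists_primitiveRoot Ω n
  by_cases hs0 : s = 0
  · rw [hs0, map_zero]
  obtain ⟨σ, ξ, h4, h5, h6, h7, h8⟩ := prim_kummerM T.toBaseTheory R M 2 hn0 hcast hζ x y w
    hR hM hn.symm hwn (hw0 (by omega)) s hs hs0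
  refine fix_eigen T α β hn0 hcast hαβ x y w hM (hw0 (by omega)) hwn hn.symm
    (fun N _ _ g v s hv hvs => ?_) γ hγ hζ σ ⟨h4, h5⟩ ξ h6
    (fun h => hα (h7 α h)) (fun h => hβ (h7 β h)) (fun h => hαβ' (h7 _ h)) s h8
  obtain ⟨hv0, hv1⟩ := Pool.Agent.Helper40.SD.sub_ne_of_not_mem _ v
    (Pool.Agent.Helper40.SD.not_mem_of_trans g x y v hv)
  exact huni N g v s hv0 (sub_ne_zero.1 hv1).symm hvs

end Pool.Agent.Helper15.WC
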