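import Pool.Agent.Helper15.WC.Act
import Pool.Agent.Helper75.WC.Prim
import Pool.Agent.Helper75.WC.RowData
import Pool.Agent.Helper15.QM.Final2

/-! Project WC. The action of the motivic Galois group on the primitive classes of the cyclic covers
of the plane in the list. -/

set_option autoImplicit false

namespace Pool.Agent.Helper15.WC

open IntermediateField Pool.Agent.Helper75.QC Pool.Agent.Helper75.TC
  Pool.Agent.Helper75.WC Pool.Agent.Helper15.QM

/-- **The list with weights.** -/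
theorem act_weighted {Ω L G : Type} [Field Ω] [IsAlgClosed Ω] [Field L] [IsAlgClosed L]
    [CharZero L] [Group G] (T : MotivicTheory Ω L G) {K : Type} [Field K] [Algebra Ω K]
    (R : IntermediateField Ω K) (M : IntermediateField R K) [FiniteDimensional R M] [IsGalois R M]
    (x y : R) (w : M) (hR : adjoin Ω {x, y} = ⊤) (hM : adjoin R {w} = ⊤)
    (hrow : IsWeighted Ω (Module.finrank R M) (algebraMap R M x) (algebraMap R M y) w)
    (γ : G) (hγ : T.IsTrivialOnAbelian γ) (s : T.H 2 M)
    (hs : Pool.Agent.Helper15.WC.IsPrim T.toBaseTheory R 2 M s) : T.act 2 M γ s = s := by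
  obtain ⟨n, hn⟩ : ∃ n, n = Module.finrank R M := ⟨_, rfl⟩
  rw [← hn] at hrow
  obtain ⟨hwn, hsmall, hlarge⟩ := row_uni x y hR w hM hn.symm hrow
  obtain ⟨hn0, htop, hfin, hcast, hw0, hmem⟩ := cyc_data x y hR w hM hn.symm hwn
  rcases Nat.lt_or_ge 2 n with hn2 | hn2
  swap
  · rw [T.uniruled 2 M (hsmall hn2) s, map_zero]
  obtain ⟨α, β, hαβ, hα, hβ, hαβ', huni⟩ := hlarge hn2
  obtain ⟨c, hc⟩ : ∃ c : R, algebraMap R M c = w ^ n := by
    rw [range_eq R M x y hR] at hwn
    exact hwn
  refine act_prim T α β hn0 hcast hαβ hα hβ hαβ' R M x y w hR hM hn.symm c hc.symm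
    (hw0 (by omega)) (fun N _ _ g v s hv hvs => ?_) γ hγ s hs
  obtain ⟨hv0, hv1⟩ := Pool.Agent.Helper40.SD.sub_ne_of_not_mem _ v
    (Pool.Agent.Helper40.SD.not_mem_of_trans g (algebraMap R M x) (algebraMap R M y) v hv)
  exact huni N g v s hv0 (sub_ne_zero.1 hv1).symm hvs

end Pool.Agent.Helper15.WC
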