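import Pool.Agent.Helper15.WC.ActM
import Pool.Agent.Helper75.WC.CurveM

/-! Project WC. The action of the motivic Galois group on the primitive classes of the cyclic covers
of the plane in the list, `x`, `y`, `w` in `M`. -/

set_option autoImplicit false

namespace Pool.Agent.Helper15.WC

open IntermediateField Pool.Agent.Helper75.QC Pool.Agent.Helper75.TC
  Pool.Agent.Helper75.WC Pool.Agent.Helper15.QM

theorem act_tabM {Ω L G : Type} [Field Ω] [IsAlgClosed Ω] [CharZero Ω] [Field L] [IsAlgClosed L]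
    [CharZero L] [Group G] (T : MotivicTheory Ω L G) {K : Type} [Field K] [Algebra Ω K]
    (R : IntermediateField Ω K) (M : IntermediateField R K) [FiniteDimensional R M] [IsGalois R M]
    (x y w : M) (hR : ∀ a : R, algebraMap R M a ∈ adjoin Ω {x, y})
    (hM : adjoin Ω {x, y, w} = ⊤)
    (h : IsTab Ω (Module.finrank (adjoin Ω {x, y}) M) x y w)
    (γ : G) (hγ : T.IsTrivialOnAbelian γ) (s : T.H 2 M) : T.act 2 M γ s = s := by
  obtain ⟨hn0, -, -⟩ := cyc_dataM x y w hR hM rfl (tab_mem h)
  obtain ⟨a, b, c, f, g, k, H, hwn⟩ := h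
  refine final_table T (K := M)
    ⟨Module.finrank (adjoin Ω {x, y}) M, f, g, k, a, b, c, _, _, w, hn0, ?_, hM, rfl, hwn⟩ γ hγ s
  rcases H with H | H
  · exact Or.inr (Or.inl H)
  · exact Or.inr (Or.inr (Or.inl H))

theorem act_lstM {Ω L G : Type} [Field Ω] [IsAlgClosed Ω] [CharZero Ω] [Field L] [IsAlgClosed L]
    [CharZero L] [Group G] (T : MotivicTheory Ω L G) {K : Type} [Field K] [Algebra Ω K]
    (R : IntermediateField Ω K) (M : IntermediateField R K) [FiniteDimensional R M] [IsGalois R M]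
    (h : LstM Ω R M) (γ : G) (hγ : T.IsTrivialOnAbelian γ) (s : T.H 2 M)
    (hs : Pool.Agent.Helper15.WC.IsPrim T.toBaseTheory R 2 M s) : T.act 2 M γ s = s := by
  obtain ⟨x, y, w, hR, hM, h | h⟩ := h
  · exact act_weightedM T R M x y w hR hM h γ hγ s hs
  · exact act_tabM T R M x y w hR hM h γ hγ s

end Pool.Agent.Helper15.WC
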