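import Pool.Agent.Helper75.WC.Abel

/-! Project WC. The cohomology of a finite abelian extension `K / R` is spanned by the eigenclasses
of the intermediate fields `M`, `Gal(M / R)` cyclic, for the faithful characters of `Gal(M / R)`. -/

set_option autoImplicit false

namespace Pool.Agent.Helper15.WC

open IntermediateField Pool.Agent.Helper75.QC Pool.Agent.Helper75.WC

variable {Ω L K : Type} [Field Ω] [Field L] [Field K] [Algebra Ω K]

/-- The class `s` of `M` is an eigenclass for a faithful character of `Gal(M / R)`. -/
def IsPrim (T : BaseTheory Ω L) (R : IntermediateField Ω K) (r : ℕ) (M : IntermediateField R K)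
    (s : T.H r M) : Prop :=
  ∀ g : M ≃ₐ[R] M, ∃ ξ : L, T.map r ((g : M →ₐ[R] M).restrictScalars Ω) s = ξ • s ∧
    ∀ d : ℕ, ξ ^ d = 1 → g ^ d = 1

/-- An eigenclass comes from a primitive class. -/
theorem eigen_prim (T : BaseTheory Ω L) (R : IntermediateField Ω K) [FiniteDimensional R K]
    [IsGalois R K] (r : ℕ) (χ : (K ≃ₐ[R] K) →* Lˣ) (t : T.H r K)
    (ht : ∀ g, galRep T R r g t = (χ g : L) • t) :
    IsCyclic (fixedField χ.ker ≃ₐ[R] fixedField χ.ker) ∧
      ∃ s : T.H r (fixedField χ.ker : IntermediateField R K), IsPrim T R r (fixedField χ.ker) s ∧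
        T.map r (incl R (fixedField χ.ker)) s = t := by
  classical
  obtain ⟨h1, s, hs⟩ := eigen_cyclic T R r χ t ht
  refine ⟨h1, s, ?_, hs⟩
  have hN : Normal R (fixedField χ.ker : IntermediateField R K) := inferInstance
  obtain ⟨M, hM⟩ : ∃ M : IntermediateField R K, M = fixedField χ.ker := ⟨_, rfl⟩
  intro g'
  obtain ⟨g, hg⟩ := AlgEquiv.restrictNormalHom_surjective (F := R)
    (K₁ := (fixedField χ.ker : IntermediateField R K)) K g'
  have hcomm : ∀ x : (fixedField χ.ker : IntermediateField R K),
      ((g' x : (fixedField χ.ker : IntermediateField R K)) : K) = g x := by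
    intro x
    rw [← hg]
    exact AlgEquiv.restrictNormal_commutes g _ x
  refine ⟨χ g, ?_, fun d hd => ?_⟩
  · have hinj : Function.Injective (T.map r (incl R (fixedField χ.ker : IntermediateField R K))) := by
      refine T.inj r _ fun k => ?_
      have h2 : IsAlgebraic (fixedField χ.ker : IntermediateField R K) k :=
        Algebra.IsAlgebraic.isAlgebraic k
      obtain ⟨p, hp0, hp⟩ := h2
      let e : (fixedField χ.ker : IntermediateField R K) →+*
          (incl R (fixedField χ.ker : IntermediateField R K)).fieldRange :=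
        (incl R (fixedField χ.ker : IntermediateField R K)).rangeRestrict.toRingHom
      refine ⟨p.map e, ?_, ?_⟩
      · rw [Ne, Polynomial.map_eq_zero_iff e.injective]
        exact hp0
      · rw [Polynomial.aeval_def, Polynomial.eval₂_map]
        exact hp
    apply hinj
    rw [map_smul, hs]
    have e1 : T.map r (incl R (fixedField χ.ker))
        (T.map r ((g' : (fixedField χ.ker : IntermediateField R K) →ₐ[R]
          (fixedField χ.ker : IntermediateField R K)).restrictScalars Ω) s) =
        T.map r ((incl R (fixedField χ.ker)).comp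
          ((g' : (fixedField χ.ker : IntermediateField R K) →ₐ[R]
          (fixedField χ.ker : IntermediateField R K)).restrictScalars Ω)) s :=
      (LinearMap.congr_fun (T.map_comp r _ _) s).symm
    have e2 : (incl R (fixedField χ.ker : IntermediateField R K)).comp
        ((g' : (fixedField χ.ker : IntermediateField R K) →ₐ[R]
          (fixedField χ.ker : IntermediateField R K)).restrictScalars Ω) =
        ((g : K →ₐ[R] K).restrictScalars Ω).comp (incl R (fixedField χ.ker)) := by
      ext x
      exact hcomm x
    have e3 : T.map r (((g : K →ₐ[R] K).restrictScalars Ω).comp (incl R (fixedField χ.ker))) s =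
        T.map r ((g : K →ₐ[R] K).restrictScalars Ω) (T.map r (incl R (fixedField χ.ker)) s) :=
      LinearMap.congr_fun (T.map_comp r _ _) s
    rw [e1, e2, e3, hs]
    exact ht g
  · have h2 : g ^ d ∈ χ.ker := by
      rw [MonoidHom.mem_ker, map_pow]
      exact Units.ext (by rw [Units.val_pow_eq_pow_val, hd, Units.val_one])
    have h3 : ∀ x : (fixedField χ.ker : IntermediateField R K), ∀ k : ℕ,
        (((g' ^ k) x : (fixedField χ.ker : IntermediateField R K)) : K) = (g ^ k) x := by
      intro x k
      induction k generalizing x with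
      | zero => rfl
      | succ k ih =>
        rw [pow_succ, pow_succ, AlgEquiv.mul_apply, AlgEquiv.mul_apply, ih, hcomm]
    refine AlgEquiv.ext fun x => Subtype.ext ?_
    rw [h3 x d]
    exact x.2 ⟨g ^ d, h2⟩

/-- **A subspace which contains the images of the primitive classes is everything.** -/
theorem eq_top_of_prim [CharZero L] [IsAlgClosed L] (T : BaseTheory Ω L) (R : IntermediateField Ω K)
    [FiniteDimensional R K] [IsGalois R K] (hab : ∀ g h : K ≃ₐ[R] K, g * h = h * g) (r : ℕ)
    (P : Submodule L (T.H r K))
    (hP : ∀ M : IntermediateField R K, IsCyclic (M ≃ₐ[R] M) → ∀ s : T.H r M, IsPrim T R r M s →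
      T.map r (incl R M) s ∈ P) : P = ⊤ := by
  rw [eq_top_iff]
  intro t _
  have h1 := mem_iSup_eigen hab (galRep T R r) t
  refine (iSup_le fun χ s hs => ?_ : (⨆ χ : (K ≃ₐ[R] K) →* Lˣ,
    ⨅ g, (galRep T R r g).eigenspace (χ g : L)) ≤ P) h1
  obtain ⟨h2, s', h3, h4⟩ := eigen_prim T R r χ s fun g => by
    rw [Submodule.mem_iInf] at hs
    exact Module.End.mem_eigenspace_iff.1 (hs g)
  rw [← h4]
  exact hP _ h2 s' h3

end Pool.Agent.Helper15.WC
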