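import Pool.Agent.Helper75.WC.CurveM

/-! Project WC. The cyclic covers `w ^ 8 = x ^ e F(x, y) ^ 2` of the plane as cyclic covers of degree
four of the plane with the coordinates `r`, `y`, where `r ^ 2 = x`. -/

set_option autoImplicit false

namespace Pool.Agent.Helper75.WC

open IntermediateField MvPolynomial Pool.Agent.Helper40.SD

/-! ### the substitution `x = r ^ 2` -/

/-- the polynomial `p(x ^ 2, y)` -/
noncomputable def sqx {Ω : Type} [Field Ω] (p : MvPolynomial (Fin 2) Ω) : MvPolynomial (Fin 2) Ω :=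
  aeval ![X 0 ^ 2, X 1] p

theorem aeval_sqx {Ω A : Type} [Field Ω] [Field A] [Algebra Ω A] (r y : A)
    (p : MvPolynomial (Fin 2) Ω) : aeval ![r, y] (sqx p) = aeval ![r ^ 2, y] p := by
  have h : (aeval ![r, y]).comp (aeval ![X 0 ^ 2, X 1] : MvPolynomial (Fin 2) Ω →ₐ[Ω] _) =
      (aeval ![r ^ 2, y] : MvPolynomial (Fin 2) Ω →ₐ[Ω] A) := by
    apply algHom_ext
    intro i
    fin_cases i
    · simp
    · simp
  exact DFunLike.congr_fun h p

theorem wd_sum {Ω ι κ : Type} [Field Ω] [Fintype ι] {w : ι → ℕ} {K : ℕ} (s : Finset κ)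
    (f : κ → MvPolynomial ι Ω) (h : ∀ i ∈ s, WD w K (f i)) : WD w K (∑ i ∈ s, f i) := by
  classical
  induction s using Finset.induction_on with
  | empty =>
    intro m hm
    simp at hm
  | insert a s ha ih =>
    rw [Finset.sum_insert ha]
    exact (h a (Finset.mem_insert_self _ _)).add (ih fun i hi => h i (Finset.mem_insert_of_mem hi))

theorem wd_sqx {Ω : Type} [Field Ω] {w : Fin 2 → ℕ} {K : ℕ} {p : MvPolynomial (Fin 2) Ω}
    (h : ∀ m ∈ p.support, m 0 * (2 * w 0) + m 1 * w 1 ≤ K) : WD w K (sqx p) := by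
  classical
  unfold sqx
  rw [aeval_def, eval₂_eq']
  refine wd_sum _ _ fun m hm => ?_
  have h1 : WD w (0 + (m 0 * (2 * w 0) + m 1 * w 1))
      ((algebraMap Ω (MvPolynomial (Fin 2) Ω)) (coeff m p) *
        ∏ i, ![X 0 ^ 2, X 1] i ^ m i) := by
    refine WD.mul (WD.C _) ?_
    rw [Fin.prod_univ_two]
    exact ((WD.X 0).pow 2 |>.pow (m 0)).mul ((WD.X 1).pow (m 1))
  refine h1.mono ?_
  rw [zero_add]
  exact h m hm

theorem degLE_wd {Ω : Type} [Field Ω] {a b c i k K : ℕ} {f : MvPolynomial (Fin 2) Ω}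
    (h : WD ![a, b] K f) (hk : K + c * i ≤ k) : DegLE a b c i k f := by
  intro m hm
  have h1 := h m hm
  rw [Fin.sum_univ_two] at h1
  change m 0 * a + m 1 * b ≤ K at h1
  rw [mul_comm a, mul_comm b]
  omega

/-- the weighted degree for `x` of weight one and `y` of weight two -/
theorem wd_sqx12 {Ω : Type} [Field Ω] {d : ℕ} {p : MvPolynomial (Fin 2) Ω}
    (h : p.totalDegree ≤ d) : WD ![1, 2] (2 * d) (sqx p) := by
  refine wd_sqx fun m hm => ?_
  have h1 : m 0 + m 1 ≤ d := by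
    have := (le_totalDegree hm).trans h
    rwa [Finsupp.sum_fintype _ _ (fun _ => rfl), Fin.sum_univ_two] at this
  change m 0 * (2 * 1) + m 1 * 2 ≤ _
  omega

/-- the degree in `y` -/
theorem wd_sqx01 {Ω : Type} [Field Ω] {d : ℕ} {p : MvPolynomial (Fin 2) Ω}
    (h : p.totalDegree ≤ d) : WD ![0, 1] d (sqx p) := by
  refine wd_sqx fun m hm => ?_
  have h1 : m 0 + m 1 ≤ d := by
    have := (le_totalDegree hm).trans h
    rwa [Finsupp.sum_fintype _ _ (fun _ => rfl), Fin.sum_univ_two] at this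
  change m 0 * (2 * 0) + m 1 * 1 ≤ _
  omega

/-! ### the degree -/

theorem finrank_le_of_pow {F M : Type} [Field F] [Field M] [Algebra F M] [FiniteDimensional F M]
    {w : M} (hw : adjoin F {w} = ⊤) {n : ℕ} (hn : 0 < n) {c : F} (h : w ^ n = algebraMap F M c) :
    Module.finrank F M ≤ n := by
  have hint : IsIntegral F w := Algebra.IsIntegral.isIntegral w
  have h1 : (minpoly F w).natDegree = Module.finrank F M := by
    rw [← IntermediateField.adjoin.finrank hint, hw, IntermediateField.finrank_top']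
  have h2 : minpoly F w ∣ Polynomial.X ^ n - Polynomial.C c := by
    apply minpoly.dvd
    rw [map_sub, Polynomial.aeval_X_pow, Polynomial.aeval_C, h, sub_self]
  have h3 := Polynomial.natDegree_le_of_dvd h2 (Polynomial.X_pow_sub_C_ne_zero hn c)
  rw [Polynomial.natDegree_X_pow_sub_C, h1] at h3
  exact h3

/-- **The intermediate field `Ω(r, y)`, `r ^ 2 = x`.** -/
theorem half_field {Ω R M : Type} [Field Ω] [Field R] [Field M] [Algebra Ω R]
    [Algebra Ω M] [Algebra R M] [IsScalarTower Ω R M] [FiniteDimensional R M] {x y : R}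
    (hR : adjoin Ω {x, y} = ⊤) {w : M} (hw : adjoin R {w} = ⊤)
    (hfin : Module.finrank R M = 8) {r : M} (hr : r ^ 2 = algebraMap R M x)
    (hwr : w ^ 4 ∈ adjoin Ω {r, algebraMap R M y}) :
    (∀ a : R, algebraMap R M a ∈ adjoin Ω {r, algebraMap R M y}) ∧
      Module.finrank (adjoin Ω {r, algebraMap R M y}) M = 4 ∧
      ∀ w' : M, w ∈ adjoin Ω {r, algebraMap R M y, w'} →
        adjoin Ω {r, algebraMap R M y, w'} = ⊤ := by
  have mr : r ∈ adjoin Ω {r, algebraMap R M y} := subset_adjoin _ _ (by simp)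
  have my : algebraMap R M y ∈ adjoin Ω {r, algebraMap R M y} := subset_adjoin _ _ (by simp)
  have hmem : ∀ (B : IntermediateField Ω M), r ∈ B → algebraMap R M y ∈ B →
      ∀ a : R, algebraMap R M a ∈ B := by
    intro B h1 h2 a
    have h3 : adjoin Ω {x, y} ≤ B.comap (IsScalarTower.toAlgHom Ω R M) := by
      rw [adjoin_le_iff]
      rintro s (rfl | rfl)
      · change algebraMap R M s ∈ B
        rw [← hr]
        exact pow_mem h1 2
      · exact h2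
    rw [hR] at h3
    exact h3 (mem_top (x := a))
  have hmem1 := hmem _ mr my
  refine ⟨hmem1, ?_, fun w' hw' => ?_⟩
  · obtain ⟨B, hB⟩ : ∃ B : IntermediateField Ω M, B = adjoin Ω {r, algebraMap R M y} := ⟨_, rfl⟩
    rw [← hB] at hmem1 hwr mr ⊢
    let _ : Algebra R B := RingHom.toAlgebra
      ({ toFun := fun r => ⟨algebraMap R M r, hmem1 r⟩
         map_one' := Subtype.ext (map_one _)
         map_mul' := fun a b => Subtype.ext (map_mul _ a b)
         map_zero' := Subtype.ext (map_zero _)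
         map_add' := fun a b => Subtype.ext (map_add _ a b) } : R →+* B)
    have _ : IsScalarTower R B M := IsScalarTower.of_algebraMap_eq fun r => rfl
    have hfd : FiniteDimensional B M := FiniteDimensional.right R B M
    have hfd' : FiniteDimensional R B := FiniteDimensional.left R B M
    have hmul := Module.finrank_mul_finrank R B M
    rw [hfin] at hmul
    -- `M = B(w)`
    have hBw : adjoin B {w} = ⊤ := by
      have h1 : adjoin R {w} ≤ (adjoin B {w}).restrictScalars R := by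
        rw [adjoin_le_iff]
        rintro s rfl
        exact subset_adjoin B _ rfl
      rw [hw] at h1
      rw [eq_top_iff]
      intro k _
      exact h1 (mem_top (x := k))
    have h4 : Module.finrank B M ≤ 4 :=
      finrank_le_of_pow hBw (by norm_num) (c := ⟨w ^ 4, hwr⟩) rfl
    -- `B = R(r)`
    have hBr : adjoin R {(⟨r, mr⟩ : B)} = ⊤ := by
      have h1 : ∀ k (hk : k ∈ adjoin Ω {r, algebraMap R M y}),
          (⟨k, by rw [hB]; exact hk⟩ : B) ∈ adjoin R {(⟨r, mr⟩ : B)} := by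
        have h2 : adjoin Ω {r, algebraMap R M y} ≤
            ((adjoin R {(⟨r, mr⟩ : B)}).map (IsScalarTower.toAlgHom R B M)).restrictScalars Ω := by
          rw [adjoin_le_iff]
          rintro s (rfl | rfl)
          · exact ⟨⟨s, mr⟩, subset_adjoin R _ rfl, rfl⟩
          · exact IntermediateField.algebraMap_mem _ y
        intro k hk
        obtain ⟨b, hb, hb'⟩ := h2 hk
        have h3 : b = ⟨k, by rw [hB]; exact hk⟩ := Subtype.ext hb'
        rw [← h3]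
        exact hb
      rw [eq_top_iff]
      intro k _
      exact h1 k.1 (by rw [← hB]; exact k.2)
    have h2 : Module.finrank R B ≤ 2 :=
      finrank_le_of_pow hBr (by norm_num) (c := x) (Subtype.ext hr)
    have h5 : Module.finrank R B * Module.finrank B M ≤ 2 * Module.finrank B M :=
      Nat.mul_le_mul_right _ h2
    omega
  · have h1 := hmem (adjoin Ω {r, algebraMap R M y, w'}) (subset_adjoin _ _ (by simp))
      (subset_adjoin _ _ (by simp))
    let A : IntermediateField R M :=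
      { (adjoin Ω {r, algebraMap R M y, w'}).toSubfield with
        algebraMap_mem' := h1 }
    have h2 : adjoin R {w} ≤ A := by
      rw [adjoin_le_iff]
      rintro s rfl
      exact hw'
    rw [hw] at h2
    rw [eq_top_iff]
    intro k _
    exact h2 (mem_top (x := k))

/-- The square root of `x`. -/
theorem exists_half {Ω R M : Type} [Field Ω] [Field R] [Field M] [Algebra Ω R]
    [Algebra Ω M] [Algebra R M] [IsScalarTower Ω R M] [FiniteDimensional R M] {x y : R}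
    (hR : adjoin Ω {x, y} = ⊤) {w : M} (hw : adjoin R {w} = ⊤)
    (hfin : Module.finrank R M = 8) {o : ℕ} {A : R} (hx : x ≠ 0) (hA : A ≠ 0)
    (h : w ^ 8 = algebraMap R M (x ^ (2 * o + 1) * A ^ 2)) :
    ∃ r : M, r ≠ 0 ∧ r ^ 2 = algebraMap R M x ∧ w ^ 4 = r ^ (2 * o + 1) * algebraMap R M A ∧
      (∀ a : R, algebraMap R M a ∈ adjoin Ω {r, algebraMap R M y}) ∧
      Module.finrank (adjoin Ω {r, algebraMap R M y}) M = 4 ∧
      ∀ w' : M, w ∈ adjoin Ω {r, algebraMap R M y, w'} →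
        adjoin Ω {r, algebraMap R M y, w'} = ⊤ := by
  have hxM : algebraMap R M x ≠ 0 := by simpa using hx
  have hAM : algebraMap R M A ≠ 0 := by simpa using hA
  obtain ⟨r, hr⟩ : ∃ r : M, r = w ^ 4 / (algebraMap R M x ^ o * algebraMap R M A) := ⟨_, rfl⟩
  have hden : algebraMap R M x ^ o * algebraMap R M A ≠ 0 := mul_ne_zero (pow_ne_zero _ hxM) hAM
  have hw4 : w ^ 4 = r * (algebraMap R M x ^ o * algebraMap R M A) := by
    rw [hr, div_mul_cancel₀ _ hden]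
  have hr2 : r ^ 2 = algebraMap R M x := by
    rw [hr, div_pow, div_eq_iff (pow_ne_zero _ hden), ← pow_mul, h, map_mul, map_pow, map_pow]
    ring
  have hr0 : r ≠ 0 := by
    rintro rfl
    apply hxM
    rw [← hr2]
    ring
  have hw4' : w ^ 4 = r ^ (2 * o + 1) * algebraMap R M A := by
    rw [hw4, ← hr2]
    ring
  obtain ⟨h1, h2, h3⟩ := half_field hR hw hfin hr2 (by
    have mr : r ∈ adjoin Ω {r, algebraMap R M y} := subset_adjoin _ _ (by simp)
    have my : algebraMap R M y ∈ adjoin Ω {r, algebraMap R M y} := subset_adjoin _ _ (by simp)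
    have h3 : adjoin Ω {x, y} ≤ (adjoin Ω {r, algebraMap R M y}).comap
        (IsScalarTower.toAlgHom Ω R M) := by
      rw [adjoin_le_iff]
      rintro s (rfl | rfl)
      · change algebraMap R M s ∈ adjoin Ω {r, algebraMap R M y}
        rw [← hr2]
        exact pow_mem mr 2
      · exact my
    rw [hR] at h3
    rw [hw4']
    exact mul_mem (pow_mem mr _) (h3 (mem_top (x := A))))
  exact ⟨r, hr0, hr2, hw4', h1, h2, h3⟩

/-! ### representations -/

theorem prodP_three {Ω : Type} [Field Ω] {n : ℕ} {P : ℕ → MvPolynomial (Fin 2) Ω} {b : ℕ → ℕ}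
    {e1 k1 k2 : ℕ} (he1 : e1 < n) (hk1 : k1 < n) (hk2 : k2 < n) (h1 : e1 ≠ k1) (h2 : e1 ≠ k2)
    (h3 : k1 ≠ k2) (h : ∀ e < n, e ≠ e1 → e ≠ k1 → e ≠ k2 → b e = 0) :
    prodP n P b = P e1 ^ b e1 * (P k1 ^ b k1 * P k2 ^ b k2) := by
  classical
  unfold prodP
  have hsub : ({e1, k1, k2} : Finset ℕ) ⊆ Finset.range n := by
    intro e he
    simp only [Finset.mem_insert, Finset.mem_singleton] at he
    rw [Finset.mem_range]
    rcases he with rfl | rfl | rfl <;> assumption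
  rw [← Finset.prod_subset hsub, Finset.prod_insert (by simp [h1, h2]),
    Finset.prod_insert (by simpa using h3), Finset.prod_singleton]
  intro e he hne
  simp only [Finset.mem_insert, Finset.mem_singleton, not_or] at hne
  rw [h e (Finset.mem_range.1 he) hne.1 hne.2.1 hne.2.2, pow_zero]

/-- One line has an odd exponent, the other components have even exponents. -/
theorem Rep.half {Ω R M : Type} [Field Ω] [IsAlgClosed Ω] [Field R] [Field M] [Algebra Ω R]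
    [Algebra Ω M] [Algebra R M] [IsScalarTower Ω R M] [FiniteDimensional R M] {D : ℕ → ℕ}
    (H : Rep Ω R M 8 D) (hfin : Module.finrank R M = 8) {t e1 k1 k2 o s1 s2 : ℕ}
    (ht : t.Coprime 8) (he1 : e1 < 8) (hk1 : k1 < 8) (hk2 : k2 < 8) (hn1 : e1 ≠ k1)
    (hn2 : e1 ≠ k2) (hn3 : k1 ≠ k2) (h1 : (t * e1) % 8 = (2 * o + 1) % 8)
    (h2 : D k1 = 0 ∨ (t * k1) % 8 = (2 * s1) % 8) (h3 : D k2 = 0 ∨ (t * k2) % 8 = (2 * s2) % 8)
    (hD : ∀ e < 8, e ≠ e1 → e ≠ k1 → e ≠ k2 → D e = 0) (hd1 : D e1 ≤ 1) :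
    ∃ (x y : R) (w : M) (p q : MvPolynomial (Fin 2) Ω), adjoin Ω {x, y} = ⊤ ∧ adjoin R {w} = ⊤ ∧
      x ≠ 0 ∧ p.totalDegree ≤ D k1 ∧ q.totalDegree ≤ D k2 ∧ aeval ![x, y] p ≠ 0 ∧
      aeval ![x, y] q ≠ 0 ∧
      w ^ 8 = algebraMap R M (x ^ (2 * o + 1) * (aeval ![x, y] p ^ s1 * aeval ![x, y] q ^ s2) ^ 2) := by
  obtain ⟨H', hax⟩ := H.axis hd1
  obtain ⟨b, hb⟩ : ∃ b : ℕ → ℕ, b = fun e => if e = e1 then 2 * o + 1 else if e = k1 then 2 * s1
    else if e = k2 then 2 * s2 else 0 := ⟨_, rfl⟩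
  have be1 : b e1 = 2 * o + 1 := by rw [hb]; simp
  have bk1 : b k1 = 2 * s1 := by rw [hb]; simp [Ne.symm hn1]
  have bk2 : b k2 = 2 * s2 := by rw [hb]; simp [Ne.symm hn2, Ne.symm hn3]
  obtain ⟨w, hw, hw8⟩ := H'.twist (by norm_num) ht (fun _ => 0) b (fun e he => by
    by_cases e_1 : e = e1
    · subst e_1
      rw [be1, Nat.add_zero]
      exact Or.inr h1
    by_cases e_2 : e = k1
    · subst e_2
      rw [bk1, Nat.add_zero]
      exact h2
    by_cases e_3 : e = k2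
    · subst e_3
      rw [bk2, Nat.add_zero]
      exact h3
    · exact Or.inl (hD e he e_1 e_2 e_3))
  have h0 : prodP 8 H'.P (fun _ => 0) = 1 := by
    unfold prodP
    simp
  rw [h0, map_one, map_one, mul_one, prodP_three he1 hk1 hk2 hn1 hn2 hn3 (fun e _ e_1 e_2 e_3 => by
    rw [hb]; simp [e_1, e_2, e_3]), be1, bk1, bk2] at hw8
  have hw8' : w ^ 8 = algebraMap R M (aeval ![H'.x, H'.y] (H'.P e1) ^ (2 * o + 1) *
      (aeval ![H'.x, H'.y] (H'.P k1) ^ s1 * aeval ![H'.x, H'.y] (H'.P k2) ^ s2) ^ 2) := by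
    rw [hw8]
    congr 1
    rw [map_mul, map_mul, map_pow, map_pow, map_pow]
    ring
  rcases hax with hax | hax
  · have hx : aeval ![H'.x, H'.y] (H'.P e1) = H'.x := by
      rw [hax, aeval_X]
      rfl
    have hx0 := H'.ne e1
    rw [hx] at hw8' hx0
    exact ⟨H'.x, H'.y, w, H'.P k1, H'.P k2, H'.gen, hw, hx0, H'.deg k1, H'.deg k2, H'.ne k1,
      H'.ne k2, hw8'⟩
  · exfalso
    obtain ⟨c, hc⟩ := aeval_const H'.x H'.y hax
    obtain ⟨g, hg⟩ := IsAlgClosed.exists_pow_nat_eq c (n := 2) (by norm_num)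
    obtain ⟨B, hB⟩ : ∃ B : R, B = algebraMap Ω R g ^ (2 * o + 1) *
      (aeval ![H'.x, H'.y] (H'.P k1) ^ s1 * aeval ![H'.x, H'.y] (H'.P k2) ^ s2) := ⟨_, rfl⟩
    have h4 : (w ^ 4) ^ 2 = (algebraMap R M B) ^ 2 := by
      have e1 : (w ^ 4) ^ 2 = w ^ 8 := by ring
      rw [e1, hw8', hc, ← hg, hB, ← map_pow (algebraMap R M)]
      congr 1
      rw [map_pow]
      ring
    have h5 : w ^ 4 = algebraMap R M B ∨ w ^ 4 = algebraMap R M (-B) := by
      rw [map_neg]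
      exact sq_eq_sq_iff_eq_or_eq_neg.1 h4
    have h6 : Module.finrank R M ≤ 4 := by
      rcases h5 with h5 | h5
      · exact finrank_le_of_pow hw (by norm_num) h5
      · exact finrank_le_of_pow hw (by norm_num) h5
    omega

section

variable {Ω R M : Type} [Field Ω] [IsAlgClosed Ω] [Field R] [Field M] [Algebra Ω R]
    [Algebra Ω M] [Algebra R M] [IsScalarTower Ω R M] [FiniteDimensional R M]

omit [IsAlgClosed Ω] [Algebra Ω R] [IsScalarTower Ω R M] [FiniteDimensional R M] in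
/-- the new generator `w' = u / v` with `u`, `v` in terms of the coordinates and `w` -/
theorem gen_of_div {r y w u : M} (hR : ∀ a : R, algebraMap R M a ∈ adjoin Ω {r, y})
    (hgen : ∀ w' : M, w ∈ adjoin Ω {r, y, w'} → adjoin Ω {r, y, w'} = ⊤)
    (hu : u ∈ adjoin Ω {r, y}) (hu0 : u ≠ 0) (hw0 : w ≠ 0) :
    adjoin Ω {r, y, w / u} = ⊤ ∧ adjoin Ω {r, y, u / w} = ⊤ := by
  have hle : ∀ v : M, adjoin Ω {r, y} ≤ adjoin Ω {r, y, v} := fun v =>
    adjoin.mono Ω {r, y} _ (by rintro s (rfl | rfl) <;> simp)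
  constructor
  · apply hgen
    have h1 : w / u ∈ adjoin Ω {r, y, w / u} := subset_adjoin _ _ (by simp)
    have h2 := mul_mem h1 (hle _ hu)
    rwa [div_mul_cancel₀ _ hu0] at h2
  · apply hgen
    have h1 : u / w ∈ adjoin Ω {r, y, u / w} := subset_adjoin _ _ (by simp)
    have h2 := div_mem (hle _ hu) h1
    have h3 : u / (u / w) = w := by field_simp
    rwa [h3] at h2

/-- **The type `1, 5 | 6, 6, 6`.** -/
theorem Rep.step8w_i {D : ℕ → ℕ} (H : Rep Ω R M 8 D) (hfin : Module.finrank R M = 8)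
    {t e1 k1 : ℕ} (ht : t.Coprime 8) (he1 : e1 < 8) (hk1 : k1 < 8) (h1 : (t * e1) % 8 = 5)
    (h2 : (t * k1) % 8 = 6) (hD : ∀ e < 8, e ≠ e1 → e ≠ k1 → D e = 0) (hd1 : D e1 ≤ 1)
    (hd2 : D k1 ≤ 3) :
    ∃ x y w : M, (∀ r : R, algebraMap R M r ∈ adjoin Ω {x, y}) ∧ adjoin Ω {x, y, w} = ⊤ ∧
      IsWeighted Ω (Module.finrank (adjoin Ω {x, y}) M) x y w := by
  have hn1 : e1 ≠ k1 := by
    rintro rfl
    omega
  obtain ⟨k2, hk2, hn2, hn3⟩ : ∃ k2, k2 < 8 ∧ e1 ≠ k2 ∧ k1 ≠ k2 := by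
    by_cases a : e1 ≠ 0 ∧ k1 ≠ 0
    · exact ⟨0, by norm_num, a.1, a.2⟩
    by_cases b : e1 ≠ 1 ∧ k1 ≠ 1
    · exact ⟨1, by norm_num, b.1, b.2⟩
    · exact ⟨2, by norm_num, by omega, by omega⟩
  obtain ⟨x, y, w, p, q, hR, hw, hx, hp, hq, hp0, hq0, hw8⟩ := H.half hfin (o := 2) (s1 := 3)
    (s2 := 0) ht he1 hk1 hk2 hn1 hn2 hn3 (by rw [h1]) (Or.inr (by rw [h2]))
    (Or.inl (hD k2 hk2 hn2.symm hn3.symm)) (fun e he a b _ => hD e he a b) hd1
  rw [pow_zero, mul_one] at hw8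
  obtain ⟨r, hr0, hr2, hw4, hRM, hfin4, hgen⟩ := exists_half hR hw hfin hx (pow_ne_zero 3 hp0) hw8
  have hpM : aeval ![r, algebraMap R M y] (sqx p) = algebraMap R M (aeval ![x, y] p) := by
    rw [aeval_sqx, hr2, aeval_map75]
  have hpM0 : algebraMap R M (aeval ![x, y] p) ≠ 0 := (map_ne_zero (algebraMap R M)).2 hp0
  have hw0 : w ≠ 0 := by
    rintro rfl
    rw [zero_pow (by norm_num)] at hw4
    exact mul_ne_zero (pow_ne_zero _ hr0) (by rw [map_pow]; exact pow_ne_zero _ hpM0) hw4.symm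
  have mr : r ∈ adjoin Ω {r, algebraMap R M y} := subset_adjoin _ _ (by simp)
  refine ⟨r, algebraMap R M y, algebraMap R M (aeval ![x, y] p) * r / w, hRM,
    (gen_of_div hRM hgen (mul_mem (hRM _) mr) (mul_ne_zero hpM0 hr0) hw0).2, ?_⟩
  rw [hfin4]
  refine ⟨1, 2, 1, 2, 0, X 0 * sqx p, X 0, by norm_num, Or.inl (by norm_num),
    degLE_wd (K := 1 + 2 * 3) ((WD.X 0).mul ((wd_sqx12 (hp.trans hd2)))) (by norm_num),
    Or.inl ⟨Or.inl rfl, degLE_wd (K := 1) (WD.X 0) (by norm_num), ?_, ?_⟩⟩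
  · rw [aeval_X]
    exact hr0
  · rw [map_mul, hpM, aeval_X]
    change (_ : M) * r ^ 2 = r * _
    rw [div_pow, hw4, map_pow, mul_pow]
    field_simp

/-- **The type `5, 2 | 4, 4`.** -/
theorem Rep.step8w_ii {D : ℕ → ℕ} (H : Rep Ω R M 8 D) (hfin : Module.finrank R M = 8)
    {t e1 k1 k2 : ℕ} (ht : t.Coprime 8) (he1 : e1 < 8) (hk1 : k1 < 8) (hk2 : k2 < 8)
    (h1 : (t * e1) % 8 = 5) (h2 : (t * k1) % 8 = 2) (h3 : (t * k2) % 8 = 4)
    (hD : ∀ e < 8, e ≠ e1 → e ≠ k1 → e ≠ k2 → D e = 0) (hd1 : D e1 ≤ 1) (hd2 : D k1 ≤ 1)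
    (hd3 : D k2 ≤ 2) :
    ∃ x y w : M, (∀ r : R, algebraMap R M r ∈ adjoin Ω {x, y}) ∧ adjoin Ω {x, y, w} = ⊤ ∧
      IsWeighted Ω (Module.finrank (adjoin Ω {x, y}) M) x y w := by
  have hn1 : e1 ≠ k1 := by
    rintro rfl
    omega
  have hn2 : e1 ≠ k2 := by
    rintro rfl
    omega
  have hn3 : k1 ≠ k2 := by
    rintro rfl
    omega
  obtain ⟨x, y, w, p, q, hR, hw, hx, hp, hq, hp0, hq0, hw8⟩ := H.half hfin (o := 2) (s1 := 1)
    (s2 := 2) ht he1 hk1 hk2 hn1 hn2 hn3 (by rw [h1]) (Or.inr (by rw [h2])) (Or.inr (by rw [h3]))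
    hD hd1
  rw [pow_one] at hw8
  obtain ⟨r, hr0, hr2, hw4, hRM, hfin4, hgen⟩ := exists_half hR hw hfin hx
    (mul_ne_zero hp0 (pow_ne_zero 2 hq0)) hw8
  have hpM : aeval ![r, algebraMap R M y] (sqx p) = algebraMap R M (aeval ![x, y] p) := by
    rw [aeval_sqx, hr2, aeval_map75]
  have hqM : aeval ![r, algebraMap R M y] (sqx q) = algebraMap R M (aeval ![x, y] q) := by
    rw [aeval_sqx, hr2, aeval_map75]
  have hpM0 : algebraMap R M (aeval ![x, y] p) ≠ 0 := (map_ne_zero (algebraMap R M)).2 hp0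
  have hqM0 : algebraMap R M (aeval ![x, y] q) ≠ 0 := (map_ne_zero (algebraMap R M)).2 hq0
  rw [map_mul, map_pow] at hw4
  have hw0 : w ≠ 0 := by
    rintro rfl
    rw [zero_pow (by norm_num)] at hw4
    exact mul_ne_zero (pow_ne_zero _ hr0) (mul_ne_zero hpM0 (pow_ne_zero _ hqM0)) hw4.symm
  have mr : r ∈ adjoin Ω {r, algebraMap R M y} := subset_adjoin _ _ (by simp)
  refine ⟨r, algebraMap R M y, w / (r * algebraMap R M (aeval ![x, y] q)), hRM,
    (gen_of_div hRM hgen (mul_mem mr (hRM _)) (mul_ne_zero hr0 hqM0) hw0).1, ?_⟩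
  rw [hfin4]
  refine ⟨1, 2, 1, 0, 4, X 0 * sqx p, sqx q, by norm_num, Or.inl (by norm_num),
    degLE_wd (K := 1 + 2 * 1) ((WD.X 0).mul ((wd_sqx12 (hp.trans hd2)))) (by norm_num),
    Or.inl ⟨Or.inr rfl, degLE_wd (K := 2 * 2) (wd_sqx12 (hq.trans hd3)) (by norm_num), ?_, ?_⟩⟩
  · rw [hqM]
    exact hqM0
  · rw [map_mul, hpM, hqM, aeval_X]
    change (_ : M) * _ = r * _
    rw [div_pow, hw4, mul_pow]
    field_simp

/-- **The type `7, 4 | 2, 2`.** -/
theorem Rep.step8w_iii {D : ℕ → ℕ} (H : Rep Ω R M 8 D) (hfin : Module.finrank R M = 8)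
    {t e1 k1 k2 : ℕ} (ht : t.Coprime 8) (he1 : e1 < 8) (hk1 : k1 < 8) (hk2 : k2 < 8)
    (h1 : (t * e1) % 8 = 7) (h2 : (t * k1) % 8 = 4) (h3 : (t * k2) % 8 = 2)
    (hD : ∀ e < 8, e ≠ e1 → e ≠ k1 → e ≠ k2 → D e = 0) (hd1 : D e1 ≤ 1) (hd2 : D k1 ≤ 1)
    (hd3 : D k2 ≤ 2) :
    ∃ x y w : M, (∀ r : R, algebraMap R M r ∈ adjoin Ω {x, y}) ∧ adjoin Ω {x, y, w} = ⊤ ∧
      IsWeighted Ω (Module.finrank (adjoin Ω {x, y}) M) x y w := by
  have hn1 : e1 ≠ k1 := by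
    rintro rfl
    omega
  have hn2 : e1 ≠ k2 := by
    rintro rfl
    omega
  have hn3 : k1 ≠ k2 := by
    rintro rfl
    omega
  obtain ⟨x, y, w, p, q, hR, hw, hx, hp, hq, hp0, hq0, hw8⟩ := H.half hfin (o := 3) (s1 := 2)
    (s2 := 1) ht he1 hk1 hk2 hn1 hn2 hn3 (by rw [h1]) (Or.inr (by rw [h2])) (Or.inr (by rw [h3]))
    hD hd1
  rw [pow_one] at hw8
  obtain ⟨r, hr0, hr2, hw4, hRM, hfin4, hgen⟩ := exists_half hR hw hfin hx
    (mul_ne_zero (pow_ne_zero 2 hp0) hq0) hw8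
  have hpM : aeval ![r, algebraMap R M y] (sqx p) = algebraMap R M (aeval ![x, y] p) := by
    rw [aeval_sqx, hr2, aeval_map75]
  have hqM : aeval ![r, algebraMap R M y] (sqx q) = algebraMap R M (aeval ![x, y] q) := by
    rw [aeval_sqx, hr2, aeval_map75]
  have hpM0 : algebraMap R M (aeval ![x, y] p) ≠ 0 := (map_ne_zero (algebraMap R M)).2 hp0
  have hqM0 : algebraMap R M (aeval ![x, y] q) ≠ 0 := (map_ne_zero (algebraMap R M)).2 hq0
  rw [map_mul, map_pow] at hw4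
  have hw0 : w ≠ 0 := by
    rintro rfl
    rw [zero_pow (by norm_num)] at hw4
    exact mul_ne_zero (pow_ne_zero _ hr0) (mul_ne_zero (pow_ne_zero _ hpM0) hqM0) hw4.symm
  have mr : r ∈ adjoin Ω {r, algebraMap R M y} := subset_adjoin _ _ (by simp)
  refine ⟨r, algebraMap R M y, w / (r ^ 2 * algebraMap R M (aeval ![x, y] p)), hRM,
    (gen_of_div hRM hgen (mul_mem (pow_mem mr 2) (hRM _)) (mul_ne_zero (pow_ne_zero 2 hr0) hpM0)
      hw0).1, ?_⟩
  rw [hfin4]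
  refine ⟨0, 1, 0, 2, 0, X 0 * sqx q, X 0 * sqx p, by norm_num, Or.inl (by norm_num),
    degLE_wd (K := 0 + 2) ((WD.X 0).mul ((wd_sqx01 (hq.trans hd3)))) (by norm_num),
    Or.inl ⟨Or.inl rfl, degLE_wd (K := 0 + 1) ((WD.X 0).mul (wd_sqx01 (hp.trans hd2)))
      (by norm_num), ?_, ?_⟩⟩
  · rw [map_mul, hpM, aeval_X]
    exact mul_ne_zero hr0 hpM0
  · rw [map_mul, map_mul, hpM, hqM, aeval_X]
    change (_ : M) * (r * _) ^ 2 = r * _
    rw [div_pow, hw4, mul_pow]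
    field_simp

theorem Rep.step8_i {D : ℕ → ℕ} (H : Rep Ω R M 8 D) (hfin : Module.finrank R M = 8)
    {t e1 k1 : ℕ} (ht : t.Coprime 8) (he1 : e1 < 8) (hk1 : k1 < 8) (h1 : (t * e1) % 8 = 5)
    (h2 : (t * k1) % 8 = 6) (hD : ∀ e < 8, e ≠ e1 → e ≠ k1 → D e = 0) (hd1 : D e1 ≤ 1)
    (hd2 : D k1 ≤ 3) : LstM Ω R M := by
  obtain ⟨x, y, w, a, b, c⟩ := H.step8w_i hfin ht he1 hk1 h1 h2 hD hd1 hd2
  exact ⟨x, y, w, a, b, Or.inl c⟩

theorem Rep.step8_ii {D : ℕ → ℕ} (H : Rep Ω R M 8 D) (hfin : Module.finrank R M = 8)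
    {t e1 k1 k2 : ℕ} (ht : t.Coprime 8) (he1 : e1 < 8) (hk1 : k1 < 8) (hk2 : k2 < 8)
    (h1 : (t * e1) % 8 = 5) (h2 : (t * k1) % 8 = 2) (h3 : (t * k2) % 8 = 4)
    (hD : ∀ e < 8, e ≠ e1 → e ≠ k1 → e ≠ k2 → D e = 0) (hd1 : D e1 ≤ 1) (hd2 : D k1 ≤ 1)
    (hd3 : D k2 ≤ 2) : LstM Ω R M := by
  obtain ⟨x, y, w, a, b, c⟩ := H.step8w_ii hfin ht he1 hk1 hk2 h1 h2 h3 hD hd1 hd2 hd3
  exact ⟨x, y, w, a, b, Or.inl c⟩

theorem Rep.step8_iii {D : ℕ → ℕ} (H : Rep Ω R M 8 D) (hfin : Module.finrank R M = 8)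
    {t e1 k1 k2 : ℕ} (ht : t.Coprime 8) (he1 : e1 < 8) (hk1 : k1 < 8) (hk2 : k2 < 8)
    (h1 : (t * e1) % 8 = 7) (h2 : (t * k1) % 8 = 4) (h3 : (t * k2) % 8 = 2)
    (hD : ∀ e < 8, e ≠ e1 → e ≠ k1 → e ≠ k2 → D e = 0) (hd1 : D e1 ≤ 1) (hd2 : D k1 ≤ 1)
    (hd3 : D k2 ≤ 2) : LstM Ω R M := by
  obtain ⟨x, y, w, a, b, c⟩ := H.step8w_iii hfin ht he1 hk1 hk2 h1 h2 h3 hD hd1 hd2 hd3
  exact ⟨x, y, w, a, b, Or.inl c⟩

/-- **The three types for `n = 8`.** -/
theorem step8 {D : ℕ → ℕ} (H : Rep Ω R M 8 D) (hfin : Module.finrank R M = 8)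
    {kind t e1 k1 k2 : ℕ} (ht : t.Coprime 8) (he1 : e1 < 8) (hk1 : k1 < 8) (hk2 : k2 < 8)
    (_ : e1 ≠ k1) (_ : e1 ≠ k2) (h0 : ∀ e < 8, e = e1 ∨ e = k1 ∨ e = k2 ∨ D e = 0)
    (hD : D e1 ≤ 1)
    (hk : kind = 0 ∧ (t * e1) % 8 = 5 ∧ (t * k1) % 8 = 6 ∧ D k1 ≤ 3 ∧ k2 = k1 ∨
      kind = 1 ∧ (t * e1) % 8 = 5 ∧ (t * k1) % 8 = 2 ∧ (t * k2) % 8 = 4 ∧ D k1 ≤ 1 ∧ D k2 ≤ 2 ∨
      kind = 2 ∧ (t * e1) % 8 = 7 ∧ (t * k1) % 8 = 4 ∧ (t * k2) % 8 = 2 ∧ D k1 ≤ 1 ∧ D k2 ≤ 2) :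
    ∃ x y w : M, (∀ r : R, algebraMap R M r ∈ adjoin Ω {x, y}) ∧ adjoin Ω {x, y, w} = ⊤ ∧
      IsWeighted Ω (Module.finrank (adjoin Ω {x, y}) M) x y w := by
  rcases hk with ⟨-, a1, a2, a3, rfl⟩ | ⟨-, a1, a2, a3, a4, a5⟩ | ⟨-, a1, a2, a3, a4, a5⟩
  · refine H.step8w_i hfin ht he1 hk1 a1 a2 (fun e he b1 b2 => ?_) hD a3
    rcases h0 e he with h | h | h | h
    · exact absurd h b1
    · exact absurd h b2
    · exact absurd h b2
    · exact h
  · refine H.step8w_ii hfin ht he1 hk1 hk2 a1 a2 a3 (fun e he b1 b2 b3 => ?_) hD a4 a5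
    rcases h0 e he with h | h | h | h
    · exact absurd h b1
    · exact absurd h b2
    · exact absurd h b3
    · exact h
  · refine H.step8w_iii hfin ht he1 hk1 hk2 a1 a2 a3 (fun e he b1 b2 b3 => ?_) hD a4 a5
    rcases h0 e he with h | h | h | h
    · exact absurd h b1
    · exact absurd h b2
    · exact absurd h b3
    · exact h

end

end Pool.Agent.Helper75.WC
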